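import Mathlib

set_option autoImplicit false

namespace Pool.Agent.Results.MP_a5282b_co.Ex

open Matrix

def Spectral {n : ℕ} (G : SimpleGraph (Fin n)) [DecidableRel G.Adj] (θ : ℝ) : Prop :=
  ∃ (d : ℕ) (v : Fin n → Fin d → ℝ), LinearIndependent ℝ (fun j i => v i j) ∧
    Submodule.span ℝ (Set.range fun j i => v i j) =
      Module.End.eigenspace (Matrix.toLin' (G.adjMatrix ℝ)) θ ∧
    Function.Injective v ∧ (∀ i, v i ∈ (convexHull ℝ (Set.range v)).extremePoints ℝ) ∧
    ∀ i j, i ≠ j → (IsExposed ℝ (convexHull ℝ (Set.range v)) (segment ℝ (v i) (v j)) ↔ G.Adj i j)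

lemma face {n d : ℕ} (v : Fin n → Fin d → ℝ) (c : Fin d → ℝ) (x y : Fin n)
    (h0 : c ⬝ᵥ v y = c ⬝ᵥ v x) (h1 : ∀ w, c ⬝ᵥ v w ≤ c ⬝ᵥ v x)
    (h2 : ∀ w, c ⬝ᵥ v w = c ⬝ᵥ v x → w = x ∨ w = y) :
    IsExposed ℝ (convexHull ℝ (Set.range v)) (segment ℝ (v x) (v y)) := fun _ => by
  have key : convexHull ℝ (Set.range v) ⊆
      {z | c ⬝ᵥ z ≤ c ⬝ᵥ v x ∧ (c ⬝ᵥ z = c ⬝ᵥ v x → z ∈ segment ℝ (v x) (v y))} := by
    refine convexHull_min ?_ fun z hz z' hz' a b ha hb hab => ⟨?_, fun h => ?_⟩
    · rintro _ ⟨w, rfl⟩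
      refine ⟨h1 w, fun h => ?_⟩
      rcases h2 w h with rfl | rfl
      exacts [left_mem_segment .., right_mem_segment ..]
    · simp only [dotProduct_add, dotProduct_smul, smul_eq_mul]
      have := mul_le_mul_of_nonneg_left hz.1 ha
      have := mul_le_mul_of_nonneg_left hz'.1 hb
      have : a * (c ⬝ᵥ v x) + b * (c ⬝ᵥ v x) = c ⬝ᵥ v x := by rw [← add_mul, hab, one_mul]
      linarith
    · simp only [dotProduct_add, dotProduct_smul, smul_eq_mul] at h
      have e1 := mul_le_mul_of_nonneg_left hz.1 ha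
      have e2 := mul_le_mul_of_nonneg_left hz'.1 hb
      have : a * (c ⬝ᵥ v x) + b * (c ⬝ᵥ v x) = c ⬝ᵥ v x := by rw [← add_mul, hab, one_mul]
      rcases ha.eq_or_lt with rfl | ha'
      · obtain rfl : b = 1 := by linarith
        simpa using hz'.2 (by linarith)
      rcases hb.eq_or_lt with rfl | hb'
      · obtain rfl : a = 1 := by linarith
        simpa using hz.2 (by linarith)
      exact convex_segment _ _ (hz.2 (mul_left_cancel₀ ha'.ne' (by linarith)))
        (hz'.2 (mul_left_cancel₀ hb'.ne' (by linarith))) ha hb hab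
  have m : ∀ w, v w ∈ convexHull ℝ (Set.range v) := fun w => subset_convexHull _ _ ⟨w, rfl⟩
  refine ⟨LinearMap.toContinuousLinearMap ((dotProductBilin ℝ ℝ) c), Set.ext fun z =>
    ⟨fun hz => ⟨(convex_convexHull ℝ _).segment_subset (m x) (m y) hz, fun t ht => ?_⟩,
      fun hz => (key hz.1).2 (le_antisymm (key hz.1).1 (hz.2 _ (m x)))⟩⟩
  obtain ⟨a, b, -, -, hab, rfl⟩ := hz
  change c ⬝ᵥ t ≤ c ⬝ᵥ _
  simp only [dotProduct_add, dotProduct_smul, smul_eq_mul, h0]
  rw [← add_mul, hab, one_mul]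
  exact (key ht).1

def H (x s : Fin 64) : ℤ := if Nat.testBit 7608434000728254870 (x.val &&& s.val) then -1 else 1

def G : SimpleGraph (Fin 64) where
  Adj x y := Nat.testBit 18446532142155919742 (x.val ^^^ y.val) = true
  symm := ⟨fun x y h => by rwa [Nat.xor_comm]⟩
  loopless := ⟨fun x => by simp⟩

instance : DecidableRel G.Adj := fun x y =>
  inferInstanceAs (Decidable (Nat.testBit 18446532142155919742 (x.val ^^^ y.val) = true))

def T : Fin 12 → Fin 64 := ![1, 4, 12, 18, 23, 24, 33, 38, 44, 48, 55, 56]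

def L : Fin 64 → ℤ :=
  ![47, 5, 7, -3, 5, -1, -3, -1, -1, -3, -1, -3, 5, -1, -3, -1, -3, -1, 5, -1, -1, -3, -9, 5,
   5, -1, -3, -1, -1, -3, -1, -3, -9, 5, -1, -3, -3, -1, 5, -1, -1, -3, -1, -3, 5, -1, -3,
   -1, 5, -1, -3, -1, -9, -3, -1, 5, 5, -1, -3, -1, -1, -3, -1, -3]

lemma pm (x s : Fin 64) : H x s = 1 ∨ H x s = -1 := by
  unfold H
  split_ifs <;> simp

lemma xv : ∀ x y : Fin 64, (x ^^^ y).val = x.val ^^^ y.val := by decide +kernel

lemma xc (x y : Fin 64) : x ^^^ (x ^^^ y) = y := Fin.ext (by simp [xv])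

lemma mul (x y s : Fin 64) : H (x ^^^ y) s = H x s * H y s := by
  have pa : ∀ a < 64, ∀ b < 64, Nat.testBit 7608434000728254870 (a ^^^ b) =
      (Nat.testBit 7608434000728254870 a ^^ Nat.testBit 7608434000728254870 b) := by decide +kernel
  unfold H
  rw [xv, Nat.and_xor_distrib_right, pa _ (Nat.and_le_left.trans_lt x.2) _ (Nat.and_le_left.trans_lt y.2)]
  cases Nat.testBit _ (x.val &&& s.val) <;> cases Nat.testBit _ (y.val &&& s.val) <;> simp

lemma x0 (x y : Fin 64) : x ^^^ y = 0 ↔ x = y :=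
  ⟨fun h => by rw [← xc x y, h]; simp, fun h => by simp [h]⟩

lemma adj (x y : Fin 64) : G.Adj x y ↔ G.Adj 0 (x ^^^ y) := by simp [G, xv]

lemma f1 (x y : Fin 64) : ∑ s, H x s * H y s = if x = y then 64 else 0 := by
  have : ∀ z, ∑ s, H z s = if z = 0 then 64 else 0 := by decide +kernel
  simp only [← mul, this, x0]

lemma f2 (x s : Fin 64) : ∑ y, (if G.Adj x y then H y s else 0) = L s * H x s := by
  have : ∀ s, ∑ z, (if G.Adj 0 z then H z s else 0) = L s := by decide +kernel
  rw [← this, Finset.sum_mul, ← Equiv.sum_comp (Function.Involutive.toPerm _ (xc x))]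
  refine Finset.sum_congr rfl fun z _ => ?_
  simp only [Function.Involutive.coe_toPerm, adj x, xc, mul]
  split_ifs <;> ring

lemma f3 (x y : Fin 64) (h : x = y ∨ G.Adj x y) (w : Fin 64)
    (hw : ∀ j, H x (T j) = H y (T j) → H w (T j) = H x (T j)) : w = x ∨ w = y := by
  have : ∀ z, z = 0 ∨ G.Adj 0 z → ∀ u, (∀ j, H z (T j) = 1 → H u (T j) = 1) → u = 0 ∨ u = z := by
    decide +kernel
  rcases this (x ^^^ y) (by rwa [x0, ← adj]) (x ^^^ w) (fun j e => by
    rw [mul] at e ⊢
    rcases pm x (T j) with a | a <;> rcases pm y (T j) with b | b <;> simp_all) with t | t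
  · exact .inl ((x0 _ _).1 t).symm
  · exact .inr (by rw [← xc x w, t, xc])

lemma f4 (x y : Fin 64) (h : x ≠ y) (h' : ¬ G.Adj x y) : ∃ k l, k ≠ x ∧ k ≠ y ∧
    ∀ j, H k (T j) + H l (T j) = H x (T j) + H y (T j) := by
  have : ∀ z, z ≠ 0 → ¬ G.Adj 0 z → ∃ u, u ≠ 0 ∧ u ≠ z ∧ ∀ j, H z (T j) = 1 → H u (T j) = 1 := by
    decide +kernel
  obtain ⟨u, u1, u2, hu⟩ := this (x ^^^ y) (by rwa [Ne, x0]) (by rwa [← adj])
  refine ⟨x ^^^ u, y ^^^ u, fun e => u1 (by rw [← xc x u, e, x0]), fun e => u2 (by rw [← e, xc]),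
    fun j => ?_⟩
  have := hu j
  rw [mul] at this
  rw [mul, mul]
  rcases pm x (T j) with a | a <;> rcases pm y (T j) with b | b <;> simp_all

noncomputable def v (x : Fin 64) (j : Fin 12) : ℝ := H x (T j)

lemma sy (x s : Fin 64) : H x s = H s x := by rw [H, H, Nat.and_comm]

lemma eig (s : Fin 64) : G.adjMatrix ℝ *ᵥ (fun x => (H x s : ℝ)) = (L s : ℝ) • fun x => (H x s : ℝ) := by
  funext x
  have := congrArg (Int.cast : ℤ → ℝ) (f2 x s)
  simpa [mulVec, dotProduct, SimpleGraph.adjMatrix_apply, -SimpleGraph.adjMatrix_dotProduct,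
    -SimpleGraph.adjMatrix_mulVec_apply] using this

lemma ex (x y : Fin 64) (h : x = y ∨ G.Adj x y) :
    IsExposed ℝ (convexHull ℝ (Set.range v)) (segment ℝ (v x) (v y)) := by
  have le : ∀ w j, (if H x (T j) = H y (T j) then v x j else 0) * v w j ≤
      (if H x (T j) = H y (T j) then v x j else 0) * v x j := fun w j => by
    split_ifs
    · rcases pm x (T j) with a | a <;> rcases pm w (T j) with b | b <;> norm_num [v, a, b]
    · simp
  refine face v (fun j => if H x (T j) = H y (T j) then v x j else 0) x y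
    (Finset.sum_congr rfl fun j _ => by by_cases e : H x (T j) = H y (T j) <;> simp [v, e])
    (fun w => Finset.sum_le_sum fun j _ => le w j) fun w hw => f3 x y h w fun j e => ?_
  have := (Finset.sum_eq_sum_iff_of_le fun j _ => le w j).1 hw j (Finset.mem_univ _)
  simp only [if_pos e, v] at this
  rcases pm x (T j) with a | a <;> rcases pm w (T j) with b | b <;> rw [a, b] at this ⊢ <;>
    norm_num at this

theorem result : ∃ (n : ℕ) (G : SimpleGraph (Fin n)) (_ : DecidableRel G.Adj) (θ : ℝ), 2 ≤ n ∧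
    θ ∈ spectrum ℝ (G.adjMatrix ℝ) ∧ 2 ≤ {μ ∈ spectrum ℝ (G.adjMatrix ℝ) | θ < μ}.ncard ∧
    Spectral G θ := by
  have sp : ∀ s, (L s : ℝ) ∈ spectrum ℝ (G.adjMatrix ℝ) := fun s => by
    rw [← Matrix.spectrum_toLin', ← Module.End.hasEigenvalue_iff_mem_spectrum]
    refine Module.End.hasEigenvalue_of_hasEigenvector (x := fun x => (H x s : ℝ))
      ⟨Module.End.mem_eigenspace_iff.2 (eig s), fun h => ?_⟩
    have := congrFun h 0
    rcases pm 0 s with a | a <;> simp [a] at this
  have inj : Function.Injective v := fun x y e =>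
    (or_self_iff.1 (f3 x x (.inl rfl) y fun j _ => by
      have := congrFun e j
      simp only [v, Int.cast_inj] at this
      exact this.symm)).symm
  have ext : ∀ i, v i ∈ (convexHull ℝ (Set.range v)).extremePoints ℝ := fun i =>
    exposedPoints_subset_extremePoints
      (mem_exposedPoints_iff_exposed_singleton.2 (by simpa using ex i i (.inl rfl)))
  have m : ∀ w, v w ∈ convexHull ℝ (Set.range v) := fun w => subset_convexHull _ _ ⟨w, rfl⟩
  have l5 : ∀ j, L (T j) = 5 := by decide +kernel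
  refine ⟨64, G, inferInstance, 5, by norm_num, by simpa [l5] using sp (T 0), ?_, 12, v, ?_, ?_, inj, ext,
    fun x y e => ⟨fun h => ?_, fun h => ex x y (.inr h)⟩⟩
  · have a : L 0 = 47 := by decide +kernel
    have b : L 2 = 7 := by decide +kernel
    rw [← Set.ncard_pair (show (47 : ℝ) ≠ 7 by norm_num)]
    refine Set.ncard_le_ncard ?_ ((Matrix.finite_spectrum _).subset fun _ h => h.1)
    rintro _ (rfl | rfl)
    exacts [⟨by simpa [a] using sp 0, by norm_num⟩, ⟨by simpa [b] using sp 2, by norm_num⟩]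
  · refine Fintype.linearIndependent_iff.2 fun g hg k => ?_
    have t : ∀ j k, T j = T k ↔ j = k := by decide +kernel
    have : ∑ x, (∑ j, g j • fun i => v i j) x * v x k = 64 * g k := by
      simp only [Finset.sum_apply, Pi.smul_apply, smul_eq_mul, Finset.sum_mul, v]
      rw [Finset.sum_comm]
      have : ∀ j, ∑ x, g j * (H x (T j) : ℝ) * H x (T k) = if j = k then 64 * g j else 0 := fun j => by
        have := congrArg (Int.cast : ℤ → ℝ) (f1 (T j) (T k))
        simp only [mul_assoc, ← Finset.mul_sum, sy _ (T _)]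
        push_cast [t] at this
        rw [this]
        split_ifs <;> ring
      simp [this]
    rw [hg] at this
    simpa using this
  · refine le_antisymm (Submodule.span_le.2 ?_) fun f hf => ?_
    · rintro _ ⟨j, rfl⟩
      have := eig (T j)
      rw [l5, Int.cast_ofNat] at this
      exact Module.End.mem_eigenspace_iff.2 this
    have hf : G.adjMatrix ℝ *ᵥ f = (5 : ℝ) • f := Module.End.mem_eigenspace_iff.1 hf
    have e : f = ∑ s, ((fun x => (H x s : ℝ)) ⬝ᵥ f / 64) • fun x => (H x s : ℝ) := by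
      funext x
      simp only [Finset.sum_apply, Pi.smul_apply, smul_eq_mul, dotProduct, Finset.sum_div,
        Finset.sum_mul]
      rw [Finset.sum_comm]
      have : ∀ y, ∑ s, (H y s : ℝ) * f y / 64 * H x s = if y = x then f y else 0 := fun y => by
        have := congrArg (fun t : ℤ => (t : ℝ) * (f y / 64)) (f1 y x)
        push_cast at this
        rw [Finset.sum_mul] at this
        rw [Finset.sum_congr rfl fun s _ =>
          show (H y s : ℝ) * f y / 64 * H x s = H y s * H x s * (f y / 64) by ring, this]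
        split_ifs <;> ring
      simp [this]
    rw [e]
    refine Submodule.sum_mem _ fun s _ => ?_
    have t : ∀ s, L s = 5 → ∃ j, T j = s := by decide +kernel
    by_cases h5 : L s = 5
    · obtain ⟨j, rfl⟩ := t s h5
      exact Submodule.smul_mem _ _ (Submodule.subset_span ⟨j, rfl⟩)
    · have a := congrArg (fun u => u ⬝ᵥ f) (eig s)
      rw [dotProduct_comm, dotProduct_mulVec, ← mulVec_transpose, SimpleGraph.transpose_adjMatrix, hf,
        smul_dotProduct, smul_dotProduct, dotProduct_comm f] at a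
      have : (fun x => (H x s : ℝ)) ⬝ᵥ f = 0 := by
        by_contra hc
        exact h5 (by exact_mod_cast (mul_right_cancel₀ hc a).symm)
      simp [this]
  · by_contra hn
    obtain ⟨k, l, k1, k2, hk⟩ := f4 x y e hn
    have : v k ∈ segment ℝ (v x) (v y) := h.isExtreme.left_mem_of_mem_openSegment (m k)
      (m l) ⟨1 / 2, 1 / 2, by norm_num, by norm_num, by norm_num, rfl⟩
      ⟨1 / 2, 1 / 2, by norm_num, by norm_num, by norm_num, funext fun j => by
        have := congrArg (Int.cast : ℤ → ℝ) (hk j)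
        push_cast at this
        simp only [v, Pi.add_apply, Pi.smul_apply, smul_eq_mul]
        linarith⟩
    rcases (mem_extremePoints_iff_forall_segment.1 (ext k)).2 _ (m x) _ (m y) this with t | t
    exacts [k1 (inj t).symm, k2 (inj t).symm]

end Pool.Agent.Results.MP_a5282b_co.Ex
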